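import Pool.Agent.H56.STR.AllOf
import Pool.Agent.H47.RZ.Fin

/-!
# THEOREM AC, all Julia sets
-/

set_option autoImplicit false

open Polynomial

namespace Pool.Agent.H56.STR

open Pool.Agent.H79.Eul Pool.Agent.H79.Par
open Pool.Agent.H64.TP (KK)
open Pool.Agent.H57.CF Pool.Agent.H47.NM
open Pool.Agent.H21.AS (ACs)

theorem qpx : QPX := fun hd hcop hdeg hup hJ _ _ _ hK => Pool.Agent.H47.RZ.qs_ex hd hcop hdeg hup hJ hK

theorem pgq : PGQ := fun hd hcop hdeg hup hJ h0 h1 hi hCK q hq => Pool.Agent.H47.RZ.pgq hd hcop hdeg hup hJ h0 h1 hi hCK q hq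

theorem pge : PGE := fun hd hcop hdeg hup hJ h0 h1 hi hCK q hq => Pool.Agent.H47.RZ.pge hd hcop hdeg hup hJ h0 h1 hi hCK q hq

theorem ac_all {d m : ℕ} (hd : 2 ≤ d) (hm : m ≤ d) {x : Em d m} (hcop : IsCoprime (pol x.1) (pol x.2))
    (hdeg : max (pol x.1).natDegree (pol x.2).natDegree = d) (hup : ¬ UpF d m x) : ACs (KK (Rf (ex d m x))) :=
  ac_of qpx pgq pge hd hm hcop hdeg hup

end Pool.Agent.H56.STR
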