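import Pool.Agent.H56.STR.Fam
import Pool.Agent.H56.ONE.Robn
import Pool.Agent.H31.LOC.Loc

/-!
# THEOREM AC, Julia set not the sphere

`ac_fam`: the closure of the orbits of the Julia critical values is asymptotically connected.
-/

set_option autoImplicit false

open Polynomial

namespace Pool.Agent.H56.STR

open Pool.Agent.H56.HR (FS)
open Pool.Agent.H79.Eul Pool.Agent.H79.Par
open Pool.Agent.H64.TP (KK)
open Pool.Agent.H57.CF Pool.Agent.H47.NM
open Pool.Agent.H21.AS (ACs)

theorem ac_fam {d m : ℕ} (hd : 2 ≤ d) (hm : m ≤ d) {x : Em d m} (hcop : IsCoprime (pol x.1) (pol x.2))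
    (hdeg : max (pol x.1).natDegree (pol x.2).natDegree = d) (hup : ¬ UpF d m x)
    (hF : (FS (Rf (ex d m x))).Nonempty) : ACs (KK (Rf (ex d m x))) :=
  Pool.Agent.H56.END.aca_fam Pool.Agent.H56.ONE.roba Pool.Agent.H31.LOC.locf (strf Pool.Agent.H31.LOC.locf) ckf hd hm hcop hdeg hup hF

end Pool.Agent.H56.STR
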