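import Pool.Agent.H56.STR.Sph
import Pool.Agent.H56.ONE.Robn

/-!
# THEOREM AC, END in a chart

`end_chx`: a chart `CHX` and the field `FG` with a typical point whose orbit tends to the minimal piece `S`: `S` is asymptotically
connected (`roba`). `PGE`: the planar setting with the fields of THEOREM LOC in the chart `em q` (H47/RZ). `endq`: `ENDQ`.
-/

set_option autoImplicit false

open Filter Topology Polynomial Metric Set MeasureTheory

namespace Pool.Agent.H56.STR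

open Pool.Agent.H44.Fatou (rat rat_continuous rat_coe rat_coe_of_ne pt crit_coe)
open Pool.Agent.H56.HR (FS EqAt)
open Pool.Agent.H32.BT Pool.Agent.H79.Eul Pool.Agent.H79.Par
open Pool.Agent.H35.EX Pool.Agent.H44.RR Pool.Agent.H44.RC Pool.Agent.H47.RJ
open Pool.Agent.H61.TT (gg dg ww RatD)
open Pool.Agent.H64.TP (KK)
open Pool.Agent.H83.BE (UPd)
open Pool.Agent.H21.AS (CluS ACs not_ac)
open Pool.Agent.H66.UX (PCs Pq UP CrS)
open Pool.Agent.H66.IL (em SFX)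
open Pool.Agent.H66.DIM (Mn Tz Rg Clu)
open Pool.Agent.H66.SP (PG FG)
open Pool.Agent.H47.RZ (Qs)
open Pool.Agent.H56.SPH (SFXl)
open Pool.Agent.H56.END (MnS MnA ROBa mns_dense)
open Pool.Agent.H47.NM Pool.Agent.H47.NN Pool.Agent.H44.ND Pool.Agent.H79.ES Pool.Agent.H44.RG
open Pool.Agent.H44.CP Pool.Agent.H47.PS Pool.Agent.H64.NC Pool.Agent.H57.CF

variable {F : OnePoint ℂ → OnePoint ℂ} {e : ℂ → OnePoint ℂ} {f : ℂ → ℂ} {U J P C T : Set ℂ} {δ : ℝ} {η : ℂ → ℂ → ℂ} {ρ K Q : ℝ}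
  {X hh μ : ℂ → ℂ} {b0 : ℝ}

theorem end_chx (hR : ROBa) (h : CHX F e f U J P C δ η ρ K Q) (hX : FG f U J T δ X hh μ b0)
    (hlo : ∀ z ∈ J, ∀ w ∈ J, ‖z - w‖ ≤ Q * chord (e z) (e w)) (hcont : Continuous F) (hKJ : KK F ⊆ JS F) (hCP : C ⊆ P)
    {S : Set (OnePoint ℂ)} (hSA : MnA F S) (hUP : ∃ κ : ℝ, 0 < κ ∧ UPd κ (KK F)) {z : ℂ} (hzE : z ∈ T)
    (hzC : ∀ n : ℕ, f^[n] z ∉ C) (hzS : ∀ ε : ℝ, 0 < ε → ∀ᶠ n : ℕ in atTop, ∃ p ∈ S, chord (F^[n] (e z)) p < ε) : ACs S := by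
  by_contra hAC
  have hS := hSA.mn
  have hKp := h.K0
  have hQ := h.Q0
  have hJit : ∀ z ∈ J, ∀ n : ℕ, f^[n] z ∈ J := by
    intro z hz n
    induction n with
    | zero => exact hz
    | succ n ih =>
      rw [Function.iterate_succ_apply']
      exact h.pg.Jf _ ih
  have hit : ∀ z ∈ J, ∀ n : ℕ, F^[n] (e z) = e (f^[n] z) := by
    intro z hz n
    induction n with
    | zero => rfl
    | succ n ih =>
      rw [Function.iterate_succ_apply', Function.iterate_succ_apply', ih, h.eq _ (h.pg.JU (hJit z hz n))]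
  have hPJ := h.pg.PJ
  obtain ⟨M, hM⟩ : ∃ M, M = e ⁻¹' S := ⟨_, rfl⟩
  have hMS : ∀ x : ℂ, x ∈ M ↔ e x ∈ S := fun x => by rw [hM]; rfl
  have hSf : ∀ s ∈ S, ∃ x ∈ M, e x = s := by
    intro s hs
    obtain ⟨w, hw⟩ := h.fin s (hS.sub hs)
    exact ⟨w, (hMS w).2 (hw ▸ hs), hw⟩
  have hMP : M ⊆ P := fun x hx => (h.pk x).2 (hS.sub ((hMS x).1 hx))
  have hMJ : M ⊆ J := hMP.trans hPJ
  have hMn : Mn f P M := by
    refine ⟨hM ▸ hS.cl.preimage h.emb.continuous, ?_, hMP, ?_, ?_, ?_⟩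
    · obtain ⟨s, hs⟩ := hS.ne
      obtain ⟨x, hx, -⟩ := hSf s hs
      exact ⟨x, hx⟩
    · intro x hx
      rw [hMS, ← h.eq x (h.pg.JU (hMJ hx))]
      exact hS.inv _ ((hMS x).1 hx)
    · intro x hx y hy
      rw [Metric.mem_closure_iff]
      intro ε hε
      have h1 := mns_dense hcont hS ((hMS x).1 hx) ((hMS y).1 hy)
      have h2 : {w | chord (e y) w < ε / Q} ∈ 𝓝 (e y) := by
        refine (Pool.Agent.H44.RC.ch_ball (e y) _).mem_nhds ?_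
        show chord (e y) (e y) < _
        rw [chord_zero]
        positivity
      obtain ⟨_, h3, n, rfl⟩ := mem_closure_iff_nhds.1 h1 _ h2
      have h4 : chord (e y) (F^[n] (e x)) < ε / Q := h3
      rw [hit x (hMJ hx) n] at h4
      refine ⟨f^[n] x, ⟨n, rfl⟩, ?_⟩
      rw [dist_eq_norm]
      refine (hlo y (hMJ hy) _ (hJit _ (hMJ hx) n)).trans_lt ?_
      rw [mul_comm]
      exact (lt_div_iff₀ hQ).1 h4
    · have h1 : P \ M = e ⁻¹' (KK F \ S) := by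
        ext x
        constructor
        · rintro ⟨h2, h3⟩
          exact ⟨(h.pk x).1 h2, fun h4 => h3 ((hMS x).2 h4)⟩
        · rintro ⟨h2, h3⟩
          exact ⟨(h.pk x).2 h2, fun h4 => h3 ((hMS x).1 h4)⟩
      rw [h1]
      exact hS.off.preimage h.emb.continuous
  have hin : ∀ c ∈ C, ∀ j : ℕ, f^[j] c ∈ M → c ∈ M := by
    intro c' h1 j hj
    obtain ⟨h2, h3⟩ := h.crt c' h1
    rw [hMS] at hj ⊢
    rw [← hit c' (hPJ (hCP h1)) j] at hj
    exact hSA.hin _ h2 h3 j hj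
  have hMC : (M ∩ C).Nonempty := by
    obtain ⟨c, hcS, hc⟩ := hSA.cr
    obtain ⟨z', hz', he⟩ := h.crf c hc (hKJ (hS.sub hcS)) (hS.sub hcS)
    exact ⟨z', (hMS z').2 (he ▸ hcS), hz'⟩
  -- the distance of the pieces
  obtain ⟨s0, hs0, hs1⟩ := Pool.Agent.H64.NC.ch_sep hS.cl hS.off (disjoint_left.2 fun x hx hx' => hx'.2 hx)
  obtain ⟨ε, hε, hcl⟩ := not_ac hAC
  obtain ⟨κ, hκ, r0, hr0, hup⟩ := hUP
  refine hR h.pg hX hMn hMC hCP hin ⟨Q * (K / κ), min r0 s0 * κ / K, by positivity, ?_⟩ ?_ z hzE ⟨hzC, ?_⟩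
  · -- ring
    intro x hx r hr hrr
    have h1 : K * r / κ < min r0 s0 := by
      rw [div_lt_iff₀ hκ]
      rw [lt_div_iff₀ hKp] at hrr
      linarith
    obtain ⟨y, hy, h2, h3⟩ := hup (e x) ((h.pk x).1 (hMP hx)) (K * r / κ) (by positivity) (h1.trans_le (min_le_left _ _))
    have hyS : y ∈ S := by
      by_contra hyS
      have h4 := hs1 (e x) ((hMS x).1 hx) y ⟨hy, hyS⟩
      have h5 := h1.trans_le (min_le_right r0 s0)
      linarith
    obtain ⟨w, hwM, rfl⟩ := hSf y hyS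
    refine ⟨w, hwM, ?_, ?_⟩
    · have h4 : κ * (K * r / κ) = K * r := by field_simp
      rw [h4] at h2
      have h5 := h2.trans (h.up x w)
      rw [norm_sub_rev]
      exact le_of_mul_le_mul_left h5 hKp
    · have h4 := hlo x (hMJ hx) w (hMJ hwM)
      rw [norm_sub_rev]
      calc ‖x - w‖ ≤ Q * chord (e x) (e w) := h4
        _ ≤ Q * (K * r / κ) := mul_le_mul_of_nonneg_left h3.le (by positivity)
        _ = _ := by ring
  · -- clusters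
    refine ⟨ε / (K * Q), by positivity, fun r₁ hr₁ => ?_⟩
    obtain ⟨r, hr, hrr, A, hAn, hAK, hAd, hAs⟩ := hcl (r₁ / Q) (by positivity)
    refine ⟨Q * r, by positivity, ?_, e ⁻¹' A, fun w hw => (hMS w).2 (hAK hw), ?_, ?_, ?_⟩
    · rw [lt_div_iff₀ hQ] at hrr
      linarith
    · obtain ⟨a, ha⟩ := hAn
      obtain ⟨w, -, hw⟩ := hSf a (hAK ha)
      exact ⟨w, by show e w ∈ A; rw [hw]; exact ha⟩
    · intro x hx y hy
      have h1 := hlo x (hMJ ((hMS x).2 (hAK hx))) y (hMJ ((hMS y).2 (hAK hy)))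
      exact h1.trans (mul_le_mul_of_nonneg_left (hAd _ hx _ hy) (by positivity))
    · intro x hx y hy hyA
      have h1 := hAs _ hx _ ((hMS y).1 hy) hyA
      have h2 := h1.trans (h.up x y)
      have h3 : ε / (K * Q) * (Q * r) = ε * r / K := by
        field_simp
      rw [h3, div_le_iff₀ hKp]
      linarith
  · -- the limit
    intro ε' hε'
    obtain ⟨N, hN⟩ := eventually_atTop.1 (hzS (ε' / Q) (by positivity))
    refine ⟨N, fun n hn => ?_⟩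
    obtain ⟨p, hp, h1⟩ := hN n hn
    obtain ⟨y, hy, rfl⟩ := hSf p hp
    refine ⟨y, hy, ?_⟩
    have hzJ : z ∈ J := hX.EJ hzE
    rw [hit z hzJ n] at h1
    refine (hlo _ (hJit _ hzJ n) y (hMJ hy)).trans_lt ?_
    rw [mul_comm]
    exact (lt_div_iff₀ hQ).1 h1

/-- the planar setting with the fields of THEOREM LOC in the chart `em q` -/
def PGE : Prop := ∀ {d : ℕ} {v : E d}, 2 ≤ d → IsCoprime (pol v.1) (pol v.2) →
  max (pol v.1).natDegree (pol v.2).natDegree = d → ¬ Up v → JS (Rf v) = univ →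
  Rf v ((0 : ℂ) : OnePoint ℂ) = ((0 : ℂ) : OnePoint ℂ) → Rf v ((1 : ℂ) : OnePoint ℂ) = ((1 : ℂ) : OnePoint ℂ) →
  Rf v OnePoint.infty = OnePoint.infty → (∀ c, IsCrit (Rf v) c → c ∈ KK (Rf v)) → ∀ q : ℂ,
  Qs (Rf v) (KK (Rf v)) (q : OnePoint ℂ) → ∃ A B : Polynomial ℂ, RatD d A B ∧
    (∀ w : ℂ, B.eval w ≠ 0 → Rf v (em q w) = em q (gg A B w)) ∧ CrS A B ⊆ Pq v q ∧
    ∀ (S : Set (OnePoint ℂ)), MnS (Rf v) (KK (Rf v)) S → ∀ (n : ℕ) (E : Set ℂ) (X hh μ : Fin n → ℂ → ℂ) (i0 : Fin n) (b0 : ℝ),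
      SFX (gg A B) (UP B) E n X hh μ i0 b0 →
      (∀ z ∈ E, ∀ ε : ℝ, 0 < ε → ∀ᶠ n : ℕ in atTop, ∃ p ∈ S, chord ((Rf v)^[n] (em q z)) p < ε) →
      ∃ (J E' : Set ℂ) (δ : ℝ) (η : ℂ → ℂ → ℂ) (ρ : ℝ), E' ⊆ E ∧ PG (gg A B) (UP B) J (Pq v q) (CrS A B) δ η ρ ∧
        FG (gg A B) (UP B) J E' δ (X i0) (hh i0) (μ i0) b0 ∧ ∀ z ∈ E', ∀ k : ℕ, (gg A B)^[k] z ∉ CrS A B

/-- END, Julia set = sphere -/
theorem endq (hPE : PGE) : ENDQ := by
  intro d v hd hcop hdeg hup hJ h0 h1 hi hL hCK q hq S hS hUP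
  obtain ⟨A, B, hrt, he, hCP, hE⟩ := hPE hd hcop hdeg hup hJ h0 h1 hi hCK q hq
  have hUo : IsOpen (UP B) := B.continuous.isOpen_preimage _ isClosed_singleton.isOpen_compl
  have hfd : DifferentiableOn ℂ (gg A B) (UP B) := fun z hz =>
    (Pool.Agent.H61.TT.hasDerivAt_gg hz).differentiableAt.differentiableWithinAt
  obtain ⟨c0, hc0S, hc0⟩ := hS.cr
  obtain ⟨E0, Y, hh, μ, i0, b0, hX0, hE0⟩ := hL S hS.mn ⟨c0, hc0S, hc0⟩ q 1 (gg A B) (UP B) hUo hfd (fun w hw => he w hw)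
  obtain ⟨J, E', δ, η, ρ, hEE, hpg, hfg, hEC⟩ := hE S hS.mn _ E0 Y hh μ i0 b0 hX0 hE0
  obtain ⟨e, K, Q, hea, hX, hlo⟩ := chx_q hd hJ (hq.nK 0) hrt he hpg
  obtain ⟨z, hzE⟩ : E'.Nonempty := by
    by_contra hn
    rw [not_nonempty_iff_eq_empty] at hn
    have h2 := hfg.Ep
    rw [hn, measure_empty] at h2
    exact lt_irrefl _ h2
  refine end_chx Pool.Agent.H56.ONE.roba hX hfg hlo (rat_continuous hcop) (hJ ▸ subset_univ _) hCP hS hUP hzE (hEC z hzE) ?_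
  intro ε hε
  rw [hea]
  exact hE0 z (hEE hzE) ε hε

/-- Julia set = sphere, from the inputs of H47/RZ and THEOREM LOC -/
theorem ac_sph_of (hQ : QPX) (hP : PGQ) (hPE : PGE) (hL : Pool.Agent.H56.SPH.LOCs) {d : ℕ} {v : E d} (hd : 2 ≤ d)
    (hcop : IsCoprime (pol v.1) (pol v.2))
    (hdeg : max (pol v.1).natDegree (pol v.2).natDegree = d) (hup : ¬ Up v) (hJ : JS (Rf v) = univ) :
    ACs (KK (Rf v)) := ac_sphq hQ hP (endq hPE) hL hd hcop hdeg hup hJ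

end Pool.Agent.H56.STR
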