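import Pool.Agent.H56.STR.Ac
import Pool.Agent.H56.STR.Endc
import Pool.Agent.H66.IV.Muo

/-!
# THEOREM AC, all Julia sets, from the three inputs of the preperiodic chart
-/

set_option autoImplicit false

open Filter Topology Polynomial Metric Set MeasureTheory

namespace Pool.Agent.H56.STR

open Pool.Agent.H44.Fatou (rat rat_continuous rat_coe rat_coe_of_ne pt crit_coe)
open Pool.Agent.H56.HR (FS EqAt)
open Pool.Agent.H32.BT Pool.Agent.H79.Eul Pool.Agent.H79.Par
open Pool.Agent.H35.EX Pool.Agent.H44.RR Pool.Agent.H44.RC Pool.Agent.H47.RJ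
open Pool.Agent.H47.NM Pool.Agent.H47.NN Pool.Agent.H44.ND Pool.Agent.H79.ES Pool.Agent.H44.RG
open Pool.Agent.H44.CP Pool.Agent.H47.PS Pool.Agent.H64.NC Pool.Agent.H57.CF
open Pool.Agent.H64.TP (KK)
open Pool.Agent.H21.AS (CluS ACs not_ac)
open Pool.Agent.H56.SPH (LOCs)

variable {d : ℕ}

theorem locs : LOCs := fun hd hcop hdeg hup hJ h0 h1 hi => Pool.Agent.H66.IV.sfxl_s hd hcop hdeg hup hJ h0 h1 hi

/-- all Julia sets, all families -/
theorem ac_of (hQ : QPX) (hP : PGQ) (hPE : PGE) {m : ℕ} (hd : 2 ≤ d) (hm : m ≤ d) {x : Em d m}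
    (hcop : IsCoprime (pol x.1) (pol x.2))
    (hdeg : max (pol x.1).natDegree (pol x.2).natDegree = d) (hup : ¬ UpF d m x) : ACs (KK (Rf (ex d m x))) := by
  by_cases hJ : JS (Rf (ex d m x)) = univ
  · rcases Nat.lt_or_ge m 2 with h2 | h2
    · have hup1 : ¬ Up (ex d m x) := by
        rcases Nat.lt_or_ge m 1 with h1 | h1
        · obtain rfl : m = 0 := by omega
          exact fun h => hup (up_zero h)
        · obtain rfl : m = 1 := by omega
          exact fun h => hup (Pool.Agent.H64.PF.up_one hd hcop hdeg h)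
      exact ac_sph_of hQ hP hPE locs hd (ex_cop hcop) (ex_deg hdeg) hup1 hJ
    · exfalso
      obtain ⟨D, u, φ, K, T, h, -⟩ := Pool.Agent.H31.UDC.cdx_upF hd h2 hm hcop hdeg hup
      obtain ⟨y, hy⟩ := φ.surjective OnePoint.infty
      have h3 : φ y ∈ JS (Rf u) := (js_conj φ (fun y => (h.conj y).symm) y).2 (hJ ▸ mem_univ y)
      rw [hy] at h3
      exact h3 h.ga.fi
  · have hF : (FS (Rf (ex d m x))).Nonempty := by
      by_contra h1
      refine hJ ?_
      show (FS (Rf (ex d m x)))ᶜ = univ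
      rw [Set.not_nonempty_iff_eq_empty.1 h1, Set.compl_empty]
    exact ac_fam hd hm hcop hdeg hup hF

end Pool.Agent.H56.STR
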