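import Pool.Agent.H56.STR.Tr
import Pool.Agent.H64.NC.SFZ
import Pool.Agent.H3.UP.FTR
import Pool.Agent.H64.PE.PEF

/-!
# THEOREM AC: the structure theorem for the families, Julia set not the sphere

`chx_cd`: the chart `CD` gives `CHX`. `ckf`: the Julia critical points are in `KK`. `pb_fam`, `pe_fam`: parts (b) and (e) of the
persistent recurrence. `strf`: the structure theorem `STRf`.
-/

set_option autoImplicit false

open Filter Topology Polynomial Metric Set MeasureTheory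

namespace Pool.Agent.H56.STR

open Pool.Agent.H44.Fatou (rat rat_continuous rat_coe rat_coe_of_ne pt crit_coe)
open Pool.Agent.H56.HR (FS EqAt)
open Pool.Agent.H32.BT Pool.Agent.H79.Eul Pool.Agent.H79.Par
open Pool.Agent.H35.EX Pool.Agent.H44.RR Pool.Agent.H44.RC Pool.Agent.H47.RJ
open Pool.Agent.H47.NN Pool.Agent.H44.ND Pool.Agent.H79.ES Pool.Agent.H44.TH
open Pool.Agent.H64.NC Pool.Agent.H61.TT Pool.Agent.H57.CP Pool.Agent.H3.NC
open Pool.Agent.H18.UP (NJ PJ Cr Geo CU ps_conj ps_pj)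
open Pool.Agent.H27.BR (CD ps_ga jc_comp geo_cd cu_cd pj_sub)
open Pool.Agent.H64.JS (KJ kj_inv kj_sub)
open Pool.Agent.H64.TP (KK)
open Pool.Agent.H57.CF Pool.Agent.H47.NM
open Pool.Agent.H83.BE (UPd)
open Pool.Agent.H21.AS (CluS ACs not_ac)
open Pool.Agent.H66.DIM (Mn Rg Clu)
open Pool.Agent.H56.END (LOCf STRf CKf MnA ch_up ch_lo)
open Pool.Agent.H3.UP (CE)

variable {d : ℕ}

/-- the chart of a map with Julia critical points in `KK` -/
theorem chx_cd {v u : E d} {φ : OnePoint ℂ ≃ₜ OnePoint ℂ} {K : ℝ} {T : Set (OnePoint ℂ)} {D : ℕ}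
    (h : CD v u φ K T D) (hne : ∃ c, IsCrit (Rf v) c ∧ c ∈ JS (Rf v))
    (hCK : ∀ c, IsCrit (Rf v) c → c ∈ JS (Rf v) → c ∈ KK (Rf v)) :
    ∃ (e : ℂ → OnePoint ℂ) (U J P C : Set ℂ) (δ : ℝ) (η : ℂ → ℂ → ℂ) (ρ K Q : ℝ),
      CHX (Rf v) e (gg (pol u.1) (pol u.2)) U J P C δ η ρ K Q ∧ C ⊆ P := by
  obtain ⟨c, hc, hcJ⟩ := hne
  have hJi : ∀ x ∈ JS (Rf v), Rf v x ∈ JS (Rf v) := fun x hx => by
    have h3 : φ x ∈ JS (Rf u) := (js_conj φ (fun y => (h.conj y).symm) x).2 hx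
    have h4 := h.ga.js 1 h3
    rw [Function.iterate_one, h.conj] at h4
    exact (js_conj φ (fun y => (h.conj y).symm) _).1 h4
  have hKJ : KK (Rf v) ⊆ JS (Rf v) := kj_sub (js_closed (Rf v)) hJi
  have hJ : φ c ∈ JS (Rf u) := (js_conj φ (fun y => (h.conj y).symm) c).2 hcJ
  have hfin : ∀ x ∈ JS (Rf v), ∃ z : ℂ, (z : OnePoint ℂ) = φ x := by
    intro x hx
    have h1 : φ x ∈ JS (Rf u) := (js_conj φ (fun y => (h.conj y).symm) x).2 hx
    have h2 : φ x ≠ OnePoint.infty := by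
      intro h3
      rw [h3] at h1
      exact h1 h.ga.fi
    exact OnePoint.ne_infty_iff_exists.1 h2
  obtain ⟨c1, hc1⟩ := hfin c hcJ
  have hcr1 : IsCrit (Rf u) (c1 : OnePoint ℂ) := by
    rw [hc1]
    exact (isCrit_conj φ h.conj c).2 hc
  rw [← hc1] at hJ
  obtain ⟨δ0, hG⟩ := geo_cd h hcr1 hJ
  have hb1 : (pol u.2).eval c1 ≠ 0 := h.ga.bne hJ
  have hCr1 : Cr (pol u.1) (pol u.2) c1 := ⟨hb1, (Pool.Agent.H18.UP.crit_iff hG hb1).1 hcr1⟩
  obtain ⟨δ, η, ρ, hPS⟩ := ps_ga h.ga hG hJ hCr1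
  have hCU := cu_cd h hG
  -- the chart map
  obtain ⟨e, he⟩ : ∃ e : ℂ → OnePoint ℂ, e = fun w : ℂ => φ.symm (w : OnePoint ℂ) := ⟨_, rfl⟩
  have hea : ∀ w : ℂ, e w = φ.symm (w : OnePoint ℂ) := fun w => by rw [he]
  have hφe : ∀ w : ℂ, φ (e w) = (w : OnePoint ℂ) := fun w => by rw [hea, φ.apply_symm_apply]
  have hemb : IsOpenEmbedding e := he ▸ φ.symm.isOpenEmbedding.comp OnePoint.isOpenEmbedding_coe
  have heφ : ∀ (x : OnePoint ℂ) (z : ℂ), (z : OnePoint ℂ) = φ x → e z = x := fun x z hz => by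
    rw [hea, hz, φ.symm_apply_apply]
  have heq : ∀ w ∈ {z : ℂ | (pol u.2).eval z ≠ 0}, Rf v (e w) = e (gg (pol u.1) (pol u.2) w) := by
    intro w hw
    have h1 := h.conj (e w)
    rw [hφe] at h1
    have h2 : Rf u (w : OnePoint ℂ) = ((gg (pol u.1) (pol u.2) w : ℂ) : OnePoint ℂ) := rat_coe_of_ne hw
    rw [h2] at h1
    rw [hea (gg (pol u.1) (pol u.2) w), h1, φ.symm_apply_apply]
  have hPK : ∀ z : ℂ, z ∈ PJ (pol u.1) (pol u.2) (JC u) ↔ e z ∈ KK (Rf v) := by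
    intro z
    rw [← ps_pj hCU z, ← hφe z]
    exact ps_conj hCU (e z)
  have hPJ := pj_sub hG
  -- the bounds
  obtain ⟨R, hRb⟩ := (jc_comp h.ga).isBounded.exists_norm_le
  have hK1 := hCU.K1
  have hKp : 0 < K := by linarith
  have hM0 : 0 < 1 + R ^ 2 := by positivity
  have hb_up : ∀ z w : ℂ, chord (e z) (e w) ≤ K * ‖z - w‖ := by
    intro z w
    have h1 := (h.bil (e z) (e w)).2
    rw [hφe, hφe] at h1
    exact h1.trans (mul_le_mul_of_nonneg_left (ch_up z w) hKp.le)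
  have hb_lo : ∀ z ∈ JC u, ∀ w ∈ JC u, ‖z - w‖ ≤ (1 + R ^ 2) * K * chord (e z) (e w) := by
    intro z hz w hw
    have h1 := (h.bil (e z) (e w)).1
    rw [hφe, hφe] at h1
    have h2 := ch_lo (hRb z hz) (hRb w hw)
    calc ‖z - w‖ ≤ (1 + R ^ 2) * chord (z : OnePoint ℂ) (w : OnePoint ℂ) := h2
      _ ≤ (1 + R ^ 2) * (K * chord (e z) (e w)) := mul_le_mul_of_nonneg_left h1 hM0.le
      _ = _ := by ring
  have hCe : ∀ c ∈ {c | c ∈ JC u ∧ Cr (pol u.1) (pol u.2) c}, IsCrit (Rf v) (e c) ∧ e c ∈ JS (Rf v) := by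
    intro c' h1
    obtain ⟨h1, h2⟩ := h1
    have h3 : IsCrit (Rf u) (c' : OnePoint ℂ) := (Pool.Agent.H18.UP.crit_iff hG h2.1).2 h2.2
    rw [← hφe] at h3
    have h5 : φ (e c') ∈ JS (Rf u) := by rw [hφe]; exact h1
    exact ⟨(isCrit_conj φ h.conj _).1 h3, (js_conj φ (fun y => (h.conj y).symm) _).1 h5⟩
  have hCP : {c | c ∈ JC u ∧ Cr (pol u.1) (pol u.2) c} ⊆ PJ (pol u.1) (pol u.2) (JC u) := by
    intro c' h1
    obtain ⟨h2, h3⟩ := hCe c' h1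
    rw [hPK]
    exact hCK _ h2 h3
  refine ⟨e, {z : ℂ | (pol u.2).eval z ≠ 0}, JC u, PJ (pol u.1) (pol u.2) (JC u), {c | c ∈ JC u ∧ Cr (pol u.1) (pol u.2) c},
    δ, η, ρ, K, (1 + R ^ 2) * K, ⟨Pool.Agent.H66.SP.pg_ps hPS, hemb, heq, hPK, ?_, hCe, ?_, hKp, by positivity, hb_up, ?_⟩, hCP⟩
  · intro x hx
    obtain ⟨z, hz⟩ := hfin x (hKJ hx)
    exact ⟨z, heφ x z hz⟩
  · intro c' hc' hcJ' _
    obtain ⟨z, hz⟩ := hfin c' hcJ'
    have h1 : φ c' ∈ JS (Rf u) := (js_conj φ (fun y => (h.conj y).symm) c').2 hcJ'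
    rw [← hz] at h1
    have hb : (pol u.2).eval z ≠ 0 := h.ga.bne h1
    have h2 : IsCrit (Rf u) (z : OnePoint ℂ) := by
      rw [hz]
      exact (isCrit_conj φ h.conj c').2 hc'
    exact ⟨z, ⟨h1, hb, (Pool.Agent.H18.UP.crit_iff hG hb).1 h2⟩, heφ c' z hz⟩
  · intro z hz w hw
    exact hb_lo z (hPJ hz) w (hPJ hw)

/-- PersistentRecurrence (e), first half: the Julia critical points are in `KK` -/
theorem ckf : CKf := by
  intro d m hd hm x hcop hdeg hup c hc hcJ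
  obtain ⟨r, e1, e2, -, e4⟩ := (Pool.Agent.H64.PE.conc_fam hd hm hcop hdeg hup).1 c hc hcJ
  have hKc : IsClosed (KK (Rf (ex d m x))) := isClosed_closure
  rw [← hKc.closure_eq, mem_closure_iff_nhds]
  intro W hW
  obtain ⟨n, hn, hn2⟩ := frequently_atTop.1 (e4 W hW) 1
  exact ⟨_, hn2, subset_closure ⟨r, e1, e2, n, hn, rfl⟩⟩

/-- part (b) of the persistent recurrence -/
theorem pb_fam {m : ℕ} (hd : 2 ≤ d) (hm : m ≤ d) {x : Em d m} (hcop : IsCoprime (pol x.1) (pol x.2))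
    (hdeg : max (pol x.1).natDegree (pol x.2).natDegree = d) (hup : ¬ UpF d m x) :
    ∀ E : Set (OnePoint ℂ), IsOpen E → Disjoint (frontier E) (KK (Rf (ex d m x))) → ∀ D : ℕ, ∃ N : ℕ, ∀ n, N ≤ n →
      ∀ y ∈ KK (Rf (ex d m x)), (Rf (ex d m x))^[n] y ∈ E → D < (CE (Rf (ex d m x)) E y n).ncard := by
  intro E hE hfr D
  have hcop' := ex_cop hcop
  have hdeg' := ex_deg hdeg
  have hd1 : 1 ≤ max (pol (ex d m x).1).natDegree (pol (ex d m x).2).natDegree := by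
    rw [hdeg']; omega
  have hf : Continuous (Rf (ex d m x)) := rat_continuous hcop'
  have hfin : {c | IsCrit (Rf (ex d m x)) c}.Finite := crit_finite hcop' hd1
  have hJi : ∀ y ∈ JS (Rf (ex d m x)), Rf (ex d m x) y ∈ JS (Rf (ex d m x)) :=
    fun y hy hF => hy ((fs_iff (by omega) hcop' hdeg' 1 y).1 hF)
  refine Pool.Agent.H3.UP.gue hf hfin (js_closed _) hJi (Pool.Agent.H3.UP.fat_fam hd hm hcop hdeg hup)
    (Pool.Agent.H64.NC.pr_end hd hm hcop hdeg hup) hE (isClosed_of_closure_subset fun z hz => ?_) D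
  have h2 : z ∈ KK (Rf (ex d m x)) := closure_minimal inter_subset_left isClosed_closure hz
  have h3 : z ∈ closure E := closure_mono inter_subset_right hz
  refine ⟨h2, ?_⟩
  by_contra h4
  refine disjoint_left.1 hfr ?_ h2
  rw [hE.frontier_eq]
  exact ⟨h3, h4⟩

/-- part (e) of the persistent recurrence -/
theorem pe_fam {m : ℕ} (hd : 2 ≤ d) (hm : m ≤ d) {x : Em d m} (hcop : IsCoprime (pol x.1) (pol x.2))
    (hdeg : max (pol x.1).natDegree (pol x.2).natDegree = d) (hup : ¬ UpF d m x) :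
    ∀ c, IsCrit (Rf (ex d m x)) c → c ∈ JS (Rf (ex d m x)) →
      (connectedComponentIn (KK (Rf (ex d m x))) c ∩ Pool.Agent.H44.RC.Om (Rf (ex d m x)) c).Nonempty := by
  intro c hc hcJ
  have hf : Continuous (Rf (ex d m x)) := rat_continuous (ex_cop hcop)
  have h1 := Pool.Agent.H64.PE.meet_fam hd hm hcop hdeg hup c hc hcJ
  obtain ⟨y, hy1, hy2⟩ := Pool.Agent.H64.JS.cmp_om hf (K := KK (Rf (ex d m x))) isClosed_closure (kj_inv hf) h1
  exact ⟨y, hy1, mapClusterPt_iff_frequently.1 hy2⟩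

theorem acs_empty : ACs (∅ : Set (OnePoint ℂ)) := by
  intro ε _
  refine ⟨1, one_pos, fun r _ _ A hA => ?_⟩
  obtain ⟨⟨a, ha⟩, hA2, -⟩ := hA
  exact (hA2 ha).elim

theorem kk_ne {F : OnePoint ℂ → OnePoint ℂ} (h : ¬ ACs (KK F)) : ∃ c, IsCrit F c ∧ c ∈ JS F := by
  by_contra hcon
  push Not at hcon
  refine h ?_
  have h1 : KK F = ∅ := by
    show closure {y | ∃ c, c ∈ {c | IsCrit F c} ∧ c ∈ JS F ∧ ∃ n : ℕ, 1 ≤ n ∧ F^[n] c = y} = ∅
    have h2 : {y | ∃ c, c ∈ {c | IsCrit F c} ∧ c ∈ JS F ∧ ∃ n : ℕ, 1 ≤ n ∧ F^[n] c = y} = ∅ := by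
      rw [eq_empty_iff_forall_notMem]
      rintro y ⟨c, hc, hcJ, -⟩
      exact hcon c hc hcJ
    rw [h2, closure_empty]
  rw [h1]
  exact acs_empty

/-- the structure theorem, Julia set not the sphere -/
theorem strf (hL : LOCf) : STRf := by
  intro d m hd hm x hcop hdeg hup hF hAC
  obtain ⟨D, u, φ, K, T, h1, -⟩ := hL hd hm hcop hdeg hup hF
  obtain ⟨κ, h0, -, -, hb⟩ := Pool.Agent.H64.BE.beau (d := d) hd
  have hne := kk_ne hAC
  have hCK := ckf hd hm hcop hdeg hup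
  have hcop' := ex_cop hcop
  have hdeg' := ex_deg hdeg
  have hd1 : 1 ≤ max (pol (ex d m x).1).natDegree (pol (ex d m x).2).natDegree := by
    rw [hdeg']; omega
  obtain ⟨e, U, J, P, C, δ, η, ρ, K', Q, hX, hCP⟩ := chx_cd h1 hne hCK
  exact str_tr hX (rat_open hcop' hd1) hne hCK hCP ⟨κ, h0, hb m hm x hcop hdeg hup⟩ hAC
    (pb_fam hd hm hcop hdeg hup) (pe_fam hd hm hcop hdeg hup)

end Pool.Agent.H56.STR
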