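import Pool.Agent.H56.STR.Fam
import Pool.Agent.H47.RZ.Ch
import Pool.Agent.H56.SPH.FinL

/-!
# THEOREM AC: the structure theorem, Julia set = sphere

`QPX`, `PGQ`: the chart at a strictly preperiodic point (H47/RZ). `chx_q`: it gives `CHX`. `str_s`: the structure theorem for a
normalised map. `ENDQ`: END for a minimal piece in this chart. `ac_sphq`: the conclusion, Julia set = sphere.
-/

set_option autoImplicit false

open Filter Topology Polynomial Metric Set MeasureTheory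

namespace Pool.Agent.H56.STR

open Pool.Agent.H44.Fatou (rat rat_continuous rat_coe rat_coe_of_ne pt crit_coe)
open Pool.Agent.H56.HR (FS EqAt)
open Pool.Agent.H32.BT Pool.Agent.H79.Eul Pool.Agent.H79.Par
open Pool.Agent.H35.EX Pool.Agent.H44.RR Pool.Agent.H44.RC Pool.Agent.H47.RJ
open Pool.Agent.H47.NM Pool.Agent.H47.NN Pool.Agent.H44.ND Pool.Agent.H79.ES Pool.Agent.H44.RG
open Pool.Agent.H44.CP Pool.Agent.H47.PS Pool.Agent.H64.NC Pool.Agent.H57.CF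
open Pool.Agent.H61.TT (gg dg ww RatD)
open Pool.Agent.H64.JS (KJ kj_inv it_mem)
open Pool.Agent.H64.TP (KK)
open Pool.Agent.H83.BE (UPd)
open Pool.Agent.H21.AS (CluS ACs not_ac)
open Pool.Agent.H66.UX (PCs Pq UP CrS)
open Pool.Agent.H66.IL (em)
open Pool.Agent.H78.UX (em_hom kj_img)
open Pool.Agent.H66.SP (PG FG)
open Pool.Agent.H47.RZ (Qs)
open Pool.Agent.H56.SPH (SFXl LOCs acs_pre)
open Pool.Agent.H56.END (MnS MnA ch_up ch_lo)

variable {d : ℕ}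

/-- strictly preperiodic points off `KK` -/
def QPX : Prop := ∀ {d : ℕ} {v : E d}, 2 ≤ d → IsCoprime (pol v.1) (pol v.2) →
  max (pol v.1).natDegree (pol v.2).natDegree = d → ¬ Up v → JS (Rf v) = univ →
  Rf v ((0 : ℂ) : OnePoint ℂ) = ((0 : ℂ) : OnePoint ℂ) → Rf v ((1 : ℂ) : OnePoint ℂ) = ((1 : ℂ) : OnePoint ℂ) →
  Rf v OnePoint.infty = OnePoint.infty → KK (Rf v) ≠ univ → ∃ q : ℂ, Qs (Rf v) (KK (Rf v)) (q : OnePoint ℂ)

/-- the planar setting in the chart `em q` -/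
def PGQ : Prop := ∀ {d : ℕ} {v : E d}, 2 ≤ d → IsCoprime (pol v.1) (pol v.2) →
  max (pol v.1).natDegree (pol v.2).natDegree = d → ¬ Up v → JS (Rf v) = univ →
  Rf v ((0 : ℂ) : OnePoint ℂ) = ((0 : ℂ) : OnePoint ℂ) → Rf v ((1 : ℂ) : OnePoint ℂ) = ((1 : ℂ) : OnePoint ℂ) →
  Rf v OnePoint.infty = OnePoint.infty → (∀ c, IsCrit (Rf v) c → c ∈ KK (Rf v)) → ∀ q : ℂ,
  Qs (Rf v) (KK (Rf v)) (q : OnePoint ℂ) → ∃ A B : Polynomial ℂ, RatD d A B ∧
    (∀ w : ℂ, B.eval w ≠ 0 → Rf v (em q w) = em q (gg A B w)) ∧ CrS A B ⊆ Pq v q ∧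
    ∃ (J : Set ℂ) (δ : ℝ) (η : ℂ → ℂ → ℂ) (ρ : ℝ), PG (gg A B) (UP B) J (Pq v q) (CrS A B) δ η ρ

/-- END for a minimal piece -/
def ENDQ : Prop := ∀ {d : ℕ} {v : E d}, 2 ≤ d → IsCoprime (pol v.1) (pol v.2) →
  max (pol v.1).natDegree (pol v.2).natDegree = d → ¬ Up v → JS (Rf v) = univ →
  Rf v ((0 : ℂ) : OnePoint ℂ) = ((0 : ℂ) : OnePoint ℂ) → Rf v ((1 : ℂ) : OnePoint ℂ) = ((1 : ℂ) : OnePoint ℂ) →
  Rf v OnePoint.infty = OnePoint.infty → SFXl v → (∀ c, IsCrit (Rf v) c → c ∈ KK (Rf v)) → ∀ q : ℂ,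
  Qs (Rf v) (KK (Rf v)) (q : OnePoint ℂ) → ∀ S : Set (OnePoint ℂ), MnA (Rf v) S →
  (∃ κ : ℝ, 0 < κ ∧ UPd κ (KK (Rf v))) → ACs S

theorem acs_univ : ACs (univ : Set (OnePoint ℂ)) := by
  intro ε hε
  refine ⟨1, one_pos, fun r hr hr1 A hA => ?_⟩
  obtain ⟨hAn, -, hAd, hAs⟩ := hA
  have hεr : 0 < ε * r := by positivity
  have h1 : IsOpen A := by
    rw [isOpen_iff_mem_nhds]
    intro x hx
    have h2 : {w | chord x w < ε * r} ∈ 𝓝 x := by
      refine (Pool.Agent.H44.RC.ch_ball x _).mem_nhds ?_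
      show chord x x < _
      rw [chord_zero]
      exact hεr
    refine mem_of_superset h2 fun y hy => ?_
    by_contra hyA
    exact absurd (hAs x hx y (mem_univ _) hyA) (not_le.2 hy)
  have h2 : IsClosed A := by
    rw [← isOpen_compl_iff, isOpen_iff_mem_nhds]
    intro y hy
    have h3 : {w | chord y w < ε * r} ∈ 𝓝 y := by
      refine (Pool.Agent.H44.RC.ch_ball y _).mem_nhds ?_
      show chord y y < _
      rw [chord_zero]
      exact hεr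
    refine mem_of_superset h3 fun x hx hxA => ?_
    have h4 := hAs x hxA y (mem_univ _) hy
    have h5 : chord y x < ε * r := hx
    rw [chord_comm] at h5
    linarith
  have h3 : A = univ := IsClopen.eq_univ ⟨h2, h1⟩ hAn
  have h4 := hAd OnePoint.infty (h3 ▸ mem_univ _) ((0 : ℂ) : OnePoint ℂ) (h3 ▸ mem_univ _)
  have h5 : chord OnePoint.infty ((0 : ℂ) : OnePoint ℂ) = 1 := by
    show 1 / √(1 + ‖(0 : ℂ)‖ ^ 2) = 1
    simp
  rw [h5] at h4
  linarith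

/-- the chart at `q` -/
theorem chx_q {v : E d} (hd : 2 ≤ d) {q : ℂ} (hJ : JS (Rf v) = univ)
    (hq : (q : OnePoint ℂ) ∉ KK (Rf v)) {A B : Polynomial ℂ} (hrt : RatD d A B)
    (he : ∀ w : ℂ, B.eval w ≠ 0 → Rf v (em q w) = em q (gg A B w)) {J : Set ℂ} {δ ρ : ℝ} {η : ℂ → ℂ → ℂ}
    (hpg : PG (gg A B) (UP B) J (Pq v q) (CrS A B) δ η ρ) :
    ∃ (e : ℂ → OnePoint ℂ) (K Q : ℝ), (∀ w, e w = em q w) ∧
      CHX (Rf v) e (gg A B) (UP B) J (Pq v q) (CrS A B) δ η ρ K Q ∧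
      ∀ z ∈ J, ∀ w ∈ J, ‖z - w‖ ≤ Q * chord (e z) (e w) := by
  obtain ⟨φ, K, hKp, bil, hφ⟩ := em_hom hd q
  obtain ⟨e, hee⟩ : ∃ e : ℂ → OnePoint ℂ, e = fun w : ℂ => φ.symm (w : OnePoint ℂ) := ⟨_, rfl⟩
  have hemb : IsOpenEmbedding e := hee ▸ φ.symm.isOpenEmbedding.comp OnePoint.isOpenEmbedding_coe
  have hea : ∀ w : ℂ, e w = em q w := fun w => by rw [hee]; exact hφ w
  have hφe : ∀ w : ℂ, φ (e w) = (w : OnePoint ℂ) := fun w => by rw [hee]; exact φ.apply_symm_apply _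
  have hei : Function.Injective e := hemb.injective
  have hemq : ∀ w : ℂ, em q w ≠ (q : OnePoint ℂ) := by
    intro w h3
    unfold Pool.Agent.H66.IL.em at h3
    by_cases hw : w = 0
    · rw [if_pos hw] at h3
      exact OnePoint.infty_ne_coe _ h3
    · rw [if_neg hw] at h3
      have h4 := OnePoint.coe_injective h3
      rw [add_eq_left, one_div, inv_eq_zero] at h4
      exact hw h4
  have hφq : φ (q : OnePoint ℂ) = OnePoint.infty := by
    by_contra h3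
    obtain ⟨w, hw⟩ := OnePoint.ne_infty_iff_exists.1 h3
    refine hemq w ?_
    rw [← hea, hee]
    show φ.symm (w : OnePoint ℂ) = (q : OnePoint ℂ)
    rw [hw, φ.symm_apply_apply]
  have heq : ∀ w ∈ UP B, Rf v (e w) = e (gg A B w) := by
    intro w hw
    rw [hea, hea]
    exact he w hw
  have hPK : ∀ z : ℂ, z ∈ Pq v q ↔ e z ∈ KK (Rf v) := by
    intro z
    rw [hea]
    exact Iff.rfl
  have hfin : ∀ x : OnePoint ℂ, x ≠ (q : OnePoint ℂ) → ∃ z : ℂ, e z = x := by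
    intro x hx
    have h2 : φ x ≠ OnePoint.infty := by
      intro h3
      rw [← hφq] at h3
      exact hx (φ.injective h3)
    obtain ⟨z, hz⟩ := OnePoint.ne_infty_iff_exists.1 h2
    refine ⟨z, ?_⟩
    apply φ.injective
    rw [hφe, hz]
  have hfinK : ∀ x ∈ KK (Rf v), ∃ z : ℂ, e z = x := fun x hx => hfin x fun h => hq (h ▸ hx)
  -- the bounds
  obtain ⟨R, hRb⟩ := hpg.Jc.isBounded.exists_norm_le
  have hM0 : 0 < 1 + R ^ 2 := by positivity
  have hb_up : ∀ z w : ℂ, chord (e z) (e w) ≤ K * ‖z - w‖ := by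
    intro z w
    have h1 := (bil (e z) (e w)).2
    rw [hφe, hφe] at h1
    exact h1.trans (mul_le_mul_of_nonneg_left (ch_up z w) hKp.le)
  have hb_lo : ∀ z ∈ J, ∀ w ∈ J, ‖z - w‖ ≤ (1 + R ^ 2) * K * chord (e z) (e w) := by
    intro z hz w hw
    have h1 := (bil (e z) (e w)).1
    rw [hφe, hφe] at h1
    have h2 := ch_lo (hRb z hz) (hRb w hw)
    calc ‖z - w‖ ≤ (1 + R ^ 2) * chord (z : OnePoint ℂ) (w : OnePoint ℂ) := h2
      _ ≤ (1 + R ^ 2) * (K * chord (e z) (e w)) := mul_le_mul_of_nonneg_left h1 hM0.le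
      _ = _ := by ring
  have hQ : 0 < (1 + R ^ 2) * K := by positivity
  refine ⟨e, K, (1 + R ^ 2) * K, hea, ⟨hpg, hemb, heq, hPK, hfinK, ?_, ?_, hKp, hQ, hb_up, fun z hz w hw =>
    hb_lo z (hpg.PJ hz) w (hpg.PJ hw)⟩, hb_lo⟩
  · -- critical points of the planar map
    intro c' h1
    refine ⟨?_, hJ ▸ mem_univ _⟩
    have hd1 : 1 ≤ max A.natDegree B.natDegree := by
      rw [hrt.deg]
      omega
    have h2 : IsCrit (rat A B) (c' : OnePoint ℂ) := crit_of_wr hrt.cop hd1 h1.2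
    rintro ⟨W, hW, hWi⟩
    refine h2 ⟨φ.symm ⁻¹' W ∩ (((↑) : ℂ → OnePoint ℂ) '' UP B), ?_, ?_⟩
    · refine inter_mem (φ.symm.continuous.continuousAt.preimage_mem_nhds ?_)
        (OnePoint.isOpenEmbedding_coe.isOpenMap.image_mem_nhds (hpg.Uo.mem_nhds h1.1))
      rw [hee] at hW
      exact hW
    · rintro _ ⟨ha, w, hw, rfl⟩ _ ⟨hb, w', hw', rfl⟩ hab
      rw [rat_coe_of_ne hw, rat_coe_of_ne hw'] at hab
      have h3 : gg A B w = gg A B w' := OnePoint.coe_injective hab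
      have h4 : e w ∈ W := by rw [hee]; exact ha
      have h5 : e w' ∈ W := by rw [hee]; exact hb
      rw [hei (hWi h4 h5 (by rw [heq w hw, heq w' hw', h3]))]
  · -- critical points of the map
    intro c hc _ hcK
    obtain ⟨x, hxe⟩ := hfinK c hcK
    have hxP : x ∈ Pq v q := (hPK x).2 (hxe ▸ hcK)
    have hxU : x ∈ UP B := hpg.JU (hpg.PJ hxP)
    refine ⟨x, ⟨hxU, crit_coe ?_⟩, hxe⟩
    rintro ⟨W, hW, hWi⟩
    refine (hxe ▸ hc : IsCrit (Rf v) (e x)) ⟨φ ⁻¹' (W ∩ (((↑) : ℂ → OnePoint ℂ) '' UP B)), ?_, ?_⟩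
    · refine φ.continuous.continuousAt.preimage_mem_nhds ?_
      rw [hφe]
      exact inter_mem hW (OnePoint.isOpenEmbedding_coe.isOpenMap.image_mem_nhds (hpg.Uo.mem_nhds hxU))
    · rintro a ⟨ha, w, hw, hwa⟩ b ⟨hb, w', hw', hwb⟩ hab
      have ha' : a = e w := φ.injective (by rw [hφe, hwa])
      have hb' : b = e w' := φ.injective (by rw [hφe, hwb])
      rw [ha', hb', heq w hw, heq w' hw'] at hab
      have h3 := hei hab
      rw [← hwa] at ha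
      rw [← hwb] at hb
      have h4 : rat A B (w : OnePoint ℂ) = rat A B (w' : OnePoint ℂ) := by
        rw [rat_coe_of_ne hw, rat_coe_of_ne hw']
        exact congrArg _ h3
      have h5 := hWi ha hb h4
      rw [ha', hb', OnePoint.coe_injective h5]

/-- the data of the families for a map `Rf v`, `v : E d` -/
theorem fam_v {v : E d} (hd : 2 ≤ d) (hcop : IsCoprime (pol v.1) (pol v.2))
    (hdeg : max (pol v.1).natDegree (pol v.2).natDegree = d) (hup : ¬ Up v) :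
    (∀ c, IsCrit (Rf v) c → c ∈ JS (Rf v) → c ∈ KK (Rf v)) ∧
    (∀ E : Set (OnePoint ℂ), IsOpen E → Disjoint (frontier E) (KK (Rf v)) → ∀ D : ℕ, ∃ N : ℕ, ∀ n, N ≤ n →
      ∀ y ∈ KK (Rf v), (Rf v)^[n] y ∈ E → D < (Pool.Agent.H3.UP.CE (Rf v) E y n).ncard) ∧
    (∀ c, IsCrit (Rf v) c → c ∈ JS (Rf v) → (connectedComponentIn (KK (Rf v)) c ∩ Pool.Agent.H44.RC.Om (Rf v) c).Nonempty) ∧
    ∃ κ : ℝ, 0 < κ ∧ UPd κ (KK (Rf v)) := by
  obtain ⟨x, hx⟩ : ∃ x : Em d 0, ex d 0 x = v := ⟨v, ex_zero v⟩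
  have hcop2 : IsCoprime (pol x.1) (pol x.2) := by
    have h2 : ex d 0 x = x := ex_zero x
    rw [← hx, h2] at hcop
    exact hcop
  have hdeg2 : max (pol x.1).natDegree (pol x.2).natDegree = d := by
    have h2 : ex d 0 x = x := ex_zero x
    rw [← hx, h2] at hdeg
    exact hdeg
  have hupf : ¬ UpF d 0 x := fun h => hup (hx ▸ Pool.Agent.H56.SPH.upf_zero h)
  obtain ⟨κ, k0, -, -, hb⟩ := Pool.Agent.H64.BE.beau (d := d) hd
  have h1 := ckf hd (Nat.zero_le d) hcop2 hdeg2 hupf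
  have h2 := pb_fam hd (Nat.zero_le d) hcop2 hdeg2 hupf
  have h3 := pe_fam hd (Nat.zero_le d) hcop2 hdeg2 hupf
  have h4 := hb 0 (Nat.zero_le d) x hcop2 hdeg2 hupf
  rw [hx] at h1 h2 h3 h4
  exact ⟨h1, h2, h3, κ, k0, h4⟩

/-- normalised maps, Julia set = sphere -/
theorem ac_norm (hQ : QPX) (hP : PGQ) (hE : ENDQ) (hL : LOCs) {v : E d} (hd : 2 ≤ d) (hcop : IsCoprime (pol v.1) (pol v.2))
    (hdeg : max (pol v.1).natDegree (pol v.2).natDegree = d) (hup : ¬ Up v) (hJ : JS (Rf v) = univ)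
    (h0 : Rf v ((0 : ℂ) : OnePoint ℂ) = ((0 : ℂ) : OnePoint ℂ))
    (h1 : Rf v ((1 : ℂ) : OnePoint ℂ) = ((1 : ℂ) : OnePoint ℂ)) (hi : Rf v OnePoint.infty = OnePoint.infty) :
    ACs (KK (Rf v)) := by
  by_contra hAC
  obtain ⟨hCK, hB, hE', hUP⟩ := fam_v hd hcop hdeg hup
  have hK : KK (Rf v) ≠ univ := fun h => hAC (h ▸ acs_univ)
  have hCK' : ∀ c, IsCrit (Rf v) c → c ∈ KK (Rf v) := fun c hc => hCK c hc (hJ ▸ mem_univ c)
  obtain ⟨q, hq⟩ := hQ hd hcop hdeg hup hJ h0 h1 hi hK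
  obtain ⟨A, B, hrt, he, hCP, J, δ, η, ρ, hpg⟩ := hP hd hcop hdeg hup hJ h0 h1 hi hCK' q hq
  obtain ⟨e, K, Q, -, hX, -⟩ := chx_q hd hJ (hq.nK 0) hrt he hpg
  have hd1 : 1 ≤ max (pol v.1).natDegree (pol v.2).natDegree := by
    rw [hdeg]; omega
  obtain ⟨S, hS, hSA⟩ := str_tr hX (rat_open hcop hd1) (kk_ne hAC) hCK hCP hUP hAC hB hE'
  exact hSA (hE hd hcop hdeg hup hJ h0 h1 hi (hL hd hcop hdeg hup hJ h0 h1 hi) hCK' q hq S hS hUP)

/-- Julia set = sphere -/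
theorem ac_sphq (hQ : QPX) (hP : PGQ) (hE : ENDQ) (hL : LOCs) {v : E d} (hd : 2 ≤ d) (hcop : IsCoprime (pol v.1) (pol v.2))
    (hdeg : max (pol v.1).natDegree (pol v.2).natDegree = d) (hup : ¬ Up v) (hJ : JS (Rf v) = univ) :
    ACs (KK (Rf v)) := by
  obtain ⟨q1, q2, q3, n12, n13, n23, e1, e2, e3⟩ := three_fix hd hcop hdeg hup hJ
  obtain ⟨L, G, φ, K, hch, -, f0, f1, fi⟩ := ch_three (d := d) hd n12 n13 n23
  obtain ⟨hcop1, hdeg1, hφ⟩ := hch.conj v hcop hdeg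
  have hup1 : ¬ Up (L v) := fun h =>
    hup (up_chart hd hch.cG hch.invL hch.invR (fun v h3 h4 => (hch.conj v h3 h4).2.2) hcop hdeg h)
  have hJS1 : JS (Rf (L v)) = univ := by
    rw [eq_univ_iff_forall]
    intro y
    obtain ⟨x, rfl⟩ := φ.surjective y
    exact (js_conj φ (fun y => (hφ y).symm) x).2 (hJ ▸ mem_univ x)
  have h0 : Rf (L v) ((0 : ℂ) : OnePoint ℂ) = ((0 : ℂ) : OnePoint ℂ) := by rw [← f0, hφ, e1]
  have h1 : Rf (L v) ((1 : ℂ) : OnePoint ℂ) = ((1 : ℂ) : OnePoint ℂ) := by rw [← f1, hφ, e2]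
  have hi : Rf (L v) OnePoint.infty = OnePoint.infty := by rw [← fi, hφ, e3]
  have h2 := ac_norm hQ hP hE hL hd hcop1 hdeg1 hup1 hJS1 h0 h1 hi
  have h3 := acs_pre (one_pos.trans_le hch.K1) hch.bil h2
  have h4 : φ ⁻¹' KK (Rf (L v)) = KK (Rf v) := by
    ext y
    exact kj_img hφ y
  rwa [h4] at h3

end Pool.Agent.H56.STR
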