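import Pool.Agent.H39.AC.Str
import Pool.Agent.H39.AC.Pst
import Pool.Agent.H81.AC.Acl
import Pool.Agent.H56.END.Loca

/-!
# THEOREM AC: the structure theorem on the sphere, from a chart

`CHX`: a map `F` of the sphere with a chart `e` (an open embedding of the plane) in which `F` is `f`, the planar setting `PG` for `f`,
`P = e⁻¹(KK F)`. `str_tr`: persistence and the connected components of the critical points (parts (b) and (e) of the persistent
recurrence), the ring property and clusters of `KK F`: there is a minimal piece of `KK F` with clusters, which contains a critical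
point, and the critical points whose orbits meet it.
-/

set_option autoImplicit false

open Filter Topology Metric Set MeasureTheory

namespace Pool.Agent.H56.STR

open Pool.Agent.H32.BT (IsCrit)
open Pool.Agent.H35.EX (chord)
open Pool.Agent.H44.RR (chord_zero)
open Pool.Agent.H44.RC (JS)
open Pool.Agent.H64.TP (KK)
open Pool.Agent.H64.JS (kj_inv)
open Pool.Agent.H3.UP (CE)
open Pool.Agent.H83.BE (UPd)
open Pool.Agent.H21.AS (CluS ACs not_ac)
open Pool.Agent.H66.DIM (Mn Rg Clu)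
open Pool.Agent.H66.SP (PG)
open Pool.Agent.H56.END (MnS MnA)

/-- a chart of a map of the sphere, with the planar setting -/
structure CHX (F : OnePoint ℂ → OnePoint ℂ) (e : ℂ → OnePoint ℂ) (f : ℂ → ℂ) (U J P C : Set ℂ) (δ : ℝ) (η : ℂ → ℂ → ℂ)
    (ρ K Q : ℝ) : Prop where
  pg : PG f U J P C δ η ρ
  emb : IsOpenEmbedding e
  eq : ∀ z ∈ U, F (e z) = e (f z)
  pk : ∀ z : ℂ, z ∈ P ↔ e z ∈ KK F
  fin : ∀ x ∈ KK F, ∃ z : ℂ, e z = x
  crt : ∀ c ∈ C, IsCrit F (e c) ∧ e c ∈ JS F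
  crf : ∀ c, IsCrit F c → c ∈ JS F → c ∈ KK F → ∃ z ∈ C, e z = c
  K0 : 0 < K
  Q0 : 0 < Q
  up : ∀ z w : ℂ, chord (e z) (e w) ≤ K * ‖z - w‖
  lo : ∀ z ∈ P, ∀ w ∈ P, ‖z - w‖ ≤ Q * chord (e z) (e w)

variable {F : OnePoint ℂ → OnePoint ℂ} {e : ℂ → OnePoint ℂ} {f : ℂ → ℂ} {U J P C : Set ℂ} {δ : ℝ} {η : ℂ → ℂ → ℂ} {ρ K Q : ℝ}

theorem CHX.PU (h : CHX F e f U J P C δ η ρ K Q) : P ⊆ U := h.pg.PJ.trans h.pg.JU

theorem CHX.it (h : CHX F e f U J P C δ η ρ K Q) {z : ℂ} (hz : z ∈ P) (n : ℕ) : f^[n] z ∈ P ∧ F^[n] (e z) = e (f^[n] z) := by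
  induction n with
  | zero => exact ⟨hz, rfl⟩
  | succ n ih =>
    rw [Function.iterate_succ_apply', Function.iterate_succ_apply', ih.2, h.eq _ (h.PU ih.1)]
    exact ⟨h.pg.Pf _ ih.1, rfl⟩

theorem CHX.hom (h : CHX F e f U J P C δ η ρ K Q) (hFo : IsOpenMap F) : ∀ O ⊆ U, IsOpen O → IsOpen (f '' O) := by
  intro O hO ho
  have h1 : e '' (f '' O) = F '' (e '' O) := by
    ext y
    constructor
    · rintro ⟨_, ⟨z, hz, rfl⟩, rfl⟩
      exact ⟨e z, mem_image_of_mem _ hz, h.eq z (hO hz)⟩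
    · rintro ⟨_, ⟨z, hz, rfl⟩, rfl⟩
      exact ⟨f z, mem_image_of_mem _ hz, (h.eq z (hO hz)).symm⟩
  have h2 : f '' O = e ⁻¹' (F '' (e '' O)) := by
    rw [← h1, preimage_image_eq _ h.emb.injective]
  rw [h2]
  exact (hFo _ (h.emb.isOpenMap _ ho)).preimage h.emb.continuous

theorem CHX.img (h : CHX F e f U J P C δ η ρ K Q) : e '' P = KK F := by
  ext x
  constructor
  · rintro ⟨z, hz, rfl⟩
    exact (h.pk z).1 hz
  · intro hx
    obtain ⟨z, rfl⟩ := h.fin x hx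
    exact ⟨z, (h.pk z).2 hx, rfl⟩

theorem CHX.comp (h : CHX F e f U J P C δ η ρ K Q) : IsCompact P := h.pg.Jc.of_isClosed_subset h.pg.Pc h.pg.PJ

/-- density of the critical orbits -/
theorem CHX.den (h : CHX F e f U J P C δ η ρ K Q) (hCK : ∀ c, IsCrit F c → c ∈ JS F → c ∈ KK F) :
    P ⊆ closure {y | ∃ b ∈ C, ∃ n : ℕ, f^[n] (f b) = y} := by
  intro z hz
  rw [mem_closure_iff_nhds]
  intro V hV
  have h1 : e '' V ∈ 𝓝 (e z) := h.emb.isOpenMap.image_mem_nhds hV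
  have h2 : e z ∈ closure {y | ∃ c, c ∈ {c | IsCrit F c} ∧ c ∈ JS F ∧ ∃ n : ℕ, 1 ≤ n ∧ F^[n] c = y} := (h.pk z).1 hz
  obtain ⟨_, ⟨w, hw, rfl⟩, c, hc, hcJ, n, hn, he⟩ := mem_closure_iff_nhds.1 h2 _ h1
  obtain ⟨b, hb, rfl⟩ := h.crf c hc hcJ (hCK c hc hcJ)
  have hbP : b ∈ P := (h.pk b).2 (hCK _ hc hcJ)
  rw [(h.it hbP n).2] at he
  obtain ⟨m, rfl⟩ : ∃ m, n = m + 1 := ⟨n - 1, by omega⟩
  refine ⟨w, hw, b, hb, m, ?_⟩
  rw [← Function.iterate_succ_apply f m b]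
  exact h.emb.injective he

/-- part (e) in the chart -/
theorem CHX.om (h : CHX F e f U J P C δ η ρ K Q)
    (hE : ∀ c, IsCrit F c → c ∈ JS F → (connectedComponentIn (KK F) c ∩ Pool.Agent.H44.RC.Om F c).Nonempty) (hCP : C ⊆ P) :
    ∀ b ∈ C, ∃ y ∈ connectedComponentIn P b, y ∈ Pool.Agent.H39.AC.Om f b := by
  intro b hb
  obtain ⟨hbc, hbJ⟩ := h.crt b hb
  have hbP : b ∈ P := hCP hb
  have hbK : e b ∈ KK F := (h.pk b).1 hbP
  obtain ⟨y', hy1, hy2⟩ := hE _ hbc hbJ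
  obtain ⟨y, rfl⟩ := h.fin y' (connectedComponentIn_subset _ _ hy1)
  have h1 : e '' (e ⁻¹' (connectedComponentIn (KK F) (e b))) = connectedComponentIn (KK F) (e b) := by
    rw [image_preimage_eq_iff]
    intro x hx
    obtain ⟨z, hz⟩ := h.fin x (connectedComponentIn_subset _ _ hx)
    exact ⟨z, hz⟩
  have h2 : IsPreconnected (e ⁻¹' (connectedComponentIn (KK F) (e b))) := by
    rw [← h.emb.isInducing.isPreconnected_image, h1]
    exact isPreconnected_connectedComponentIn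
  have h3 : e ⁻¹' (connectedComponentIn (KK F) (e b)) ⊆ connectedComponentIn P b :=
    h2.subset_connectedComponentIn (mem_connectedComponentIn hbK) fun z hz =>
      (h.pk z).2 (connectedComponentIn_subset _ _ hz)
  refine ⟨y, h3 hy1, fun V hV => ?_⟩
  refine (hy2 (e '' V) (h.emb.isOpenMap.image_mem_nhds hV)).mono fun n hn => ?_
  rw [(h.it hbP n).2] at hn
  obtain ⟨w, hw, hwe⟩ := hn
  rw [h.emb.injective hwe] at hw
  exact hw

/-- the ring property in the chart -/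
theorem CHX.rg (h : CHX F e f U J P C δ η ρ K Q) (hUP : ∃ κ : ℝ, 0 < κ ∧ UPd κ (KK F)) : Rg P := by
  obtain ⟨κ, hκ, r0, hr0, hup⟩ := hUP
  have hKp := h.K0
  have hQ := h.Q0
  refine ⟨Q * (K / κ), r0 * κ / K, by positivity, ?_⟩
  intro x hx r hr hrr
  have h1 : K * r / κ < r0 := by
    rw [div_lt_iff₀ hκ]
    rw [lt_div_iff₀ hKp] at hrr
    linarith
  obtain ⟨y, hy, h2, h3⟩ := hup (e x) ((h.pk x).1 hx) (K * r / κ) (by positivity) h1
  obtain ⟨w, rfl⟩ := h.fin y hy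
  have hw : w ∈ P := (h.pk w).2 hy
  refine ⟨w, hw, ?_, ?_⟩
  · have h4 : κ * (K * r / κ) = K * r := by field_simp
    rw [h4] at h2
    have h5 := h2.trans (h.up x w)
    rw [norm_sub_rev]
    exact le_of_mul_le_mul_left h5 hKp
  · have h4 := h.lo x hx w hw
    rw [norm_sub_rev]
    calc ‖x - w‖ ≤ Q * chord (e x) (e w) := h4
      _ ≤ Q * (K * r / κ) := mul_le_mul_of_nonneg_left h3.le hQ.le
      _ = _ := by ring

/-- clusters in the chart -/
theorem CHX.clu (h : CHX F e f U J P C δ η ρ K Q) (hAC : ¬ ACs (KK F)) : Clu P := by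
  have hKp := h.K0
  have hQ := h.Q0
  obtain ⟨ε, hε, hcl⟩ := not_ac hAC
  refine ⟨ε / (K * Q), by positivity, fun r₁ hr₁ => ?_⟩
  obtain ⟨r, hr, hrr, A, hAn, hAK, hAd, hAs⟩ := hcl (r₁ / Q) (by positivity)
  refine ⟨Q * r, by positivity, ?_, e ⁻¹' A, fun w hw => (h.pk w).2 (hAK hw), ?_, ?_, ?_⟩
  · rw [lt_div_iff₀ hQ] at hrr
    linarith
  · obtain ⟨a, ha⟩ := hAn
    obtain ⟨w, rfl⟩ := h.fin a (hAK ha)
    exact ⟨w, ha⟩
  · intro x hx y hy
    have h1 := h.lo x ((h.pk x).2 (hAK hx)) y ((h.pk y).2 (hAK hy))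
    exact h1.trans (mul_le_mul_of_nonneg_left (hAd _ hx _ hy) hQ.le)
  · intro x hx y hy hyA
    have h1 := hAs _ hx _ ((h.pk y).1 hy) hyA
    have h2 := h1.trans (h.up x y)
    have h3 : ε / (K * Q) * (Q * r) = ε * r / K := by
      field_simp
    rw [h3, div_le_iff₀ hKp]
    linarith

/-- a piece in the plane gives a piece on the sphere -/
theorem CHX.back (h : CHX F e f U J P C δ η ρ K Q) (hCK : ∀ c, IsCrit F c → c ∈ JS F → c ∈ KK F) {M : Set ℂ}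
    (hM : Mn f P M) (hMC : (M ∩ C).Nonempty) (hfw : ∀ x ∈ P, x ∉ M → f x ∉ M)
    (hin : ∀ b ∈ C, ∀ j : ℕ, f^[j] b ∈ M → b ∈ M) (hClu : Clu M) : ∃ S, MnA F S ∧ ¬ ACs S := by
  have hKp := h.K0
  have hQ := h.Q0
  have hMc : IsCompact M := h.comp.of_isClosed_subset hM.cl hM.sub
  refine ⟨e '' M, ⟨⟨(hMc.image h.emb.continuous).isClosed, hM.ne.image e, ?_, ?_, ?_, ?_, ?_⟩, ?_, ?_⟩, ?_⟩
  · rintro _ ⟨x, hx, rfl⟩
    exact (h.pk x).1 (hM.sub hx)
  · rintro _ ⟨x, hx, rfl⟩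
    rw [h.eq x (h.PU (hM.sub hx))]
    exact mem_image_of_mem _ (hM.inv x hx)
  · intro L hL hLc hLn hLi
    refine hL.antisymm ?_
    obtain ⟨_, hyL⟩ := hLn
    obtain ⟨x, hx, rfl⟩ := hL hyL
    have h1 : ∀ n : ℕ, f^[n] x ∈ e ⁻¹' L := by
      intro n
      induction n with
      | zero => exact hyL
      | succ n ih =>
        have h2 := hLi _ ih
        rw [h.eq _ (h.PU (h.it (hM.sub hx) n).1)] at h2
        rw [Function.iterate_succ_apply']
        exact h2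
    have h2 : M ⊆ e ⁻¹' L := (hM.min x hx).trans (closure_minimal (by
      rintro _ ⟨n, rfl⟩
      exact h1 n) (hLc.preimage h.emb.continuous))
    rintro _ ⟨y, hy, rfl⟩
    exact h2 hy
  · have h1 : KK F \ e '' M = e '' (P \ M) := by
      rw [image_sdiff h.emb.injective, h.img]
    rw [h1]
    exact ((h.comp.of_isClosed_subset hM.off sdiff_subset).image h.emb.continuous).isClosed
  · intro x hx hxM hfx
    obtain ⟨z, rfl⟩ := h.fin x hx
    have hz : z ∈ P := (h.pk z).2 hx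
    rw [h.eq z (h.PU hz)] at hfx
    obtain ⟨w, hw, hwe⟩ := hfx
    rw [h.emb.injective hwe] at hw
    exact hfw z hz (fun h2 => hxM (mem_image_of_mem _ h2)) hw
  · obtain ⟨c, hcM, hcC⟩ := hMC
    exact ⟨e c, mem_image_of_mem _ hcM, (h.crt c hcC).1⟩
  · intro c hc hcJ j hj
    obtain ⟨b, hb, rfl⟩ := h.crf c hc hcJ (hCK c hc hcJ)
    have hbP : b ∈ P := (h.pk b).2 (hCK _ hc hcJ)
    rw [(h.it hbP j).2] at hj
    obtain ⟨w, hw, hwe⟩ := hj
    rw [h.emb.injective hwe] at hw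
    exact mem_image_of_mem _ (hin b hb j hw)
  · intro hAC
    obtain ⟨ε, hε, hcl⟩ := hClu
    obtain ⟨r0, hr0, h1⟩ := hAC (ε / (Q * K)) (by positivity)
    obtain ⟨r, hr, hrr, A, hAM, hAn, hAd, hAs⟩ := hcl (r0 / K) (by positivity)
    refine h1 (K * r) (by positivity) (by
      rw [lt_div_iff₀ hKp] at hrr
      linarith) (e '' A) ⟨hAn.image e, image_mono hAM, ?_, ?_⟩
    · rintro _ ⟨x, hx, rfl⟩ _ ⟨y, hy, rfl⟩
      exact (h.up x y).trans (mul_le_mul_of_nonneg_left (hAd x hx y hy) hKp.le)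
    · rintro _ ⟨x, hx, rfl⟩ _ ⟨y, hy, rfl⟩ hyA
      have h2 := hAs x hx y hy (fun h3 => hyA (mem_image_of_mem _ h3))
      have h3 := h.lo x (hM.sub (hAM hx)) y (hM.sub hy)
      have h4 : ε / (Q * K) * (K * r) = ε * r / Q := by
        field_simp
      rw [h4, div_le_iff₀ hQ]
      linarith

/-- the structure theorem from a chart -/
theorem str_tr (h : CHX F e f U J P C δ η ρ K Q) (hFo : IsOpenMap F) (hne : ∃ c, IsCrit F c ∧ c ∈ JS F)
    (hCK : ∀ c, IsCrit F c → c ∈ JS F → c ∈ KK F) (hCP : C ⊆ P)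
    (hUP : ∃ κ : ℝ, 0 < κ ∧ UPd κ (KK F)) (hAC : ¬ ACs (KK F))
    (hB : ∀ E : Set (OnePoint ℂ), IsOpen E → Disjoint (frontier E) (KK F) → ∀ D : ℕ, ∃ N : ℕ, ∀ n, N ≤ n →
      ∀ x ∈ KK F, F^[n] x ∈ E → D < (CE F E x n).ncard)
    (hE : ∀ c, IsCrit F c → c ∈ JS F → (connectedComponentIn (KK F) c ∩ Pool.Agent.H44.RC.Om F c).Nonempty) :
    ∃ S, MnA F S ∧ ¬ ACs S := by
  have hCn : C.Nonempty := by
    obtain ⟨c, hc, hcJ⟩ := hne
    obtain ⟨z, hz, -⟩ := h.crf c hc hcJ (hCK c hc hcJ)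
    exact ⟨z, hz⟩
  have hden := h.den hCK
  have hRg := h.rg hUP
  have hClu := h.clu hAC
  have hPP : IsClosed (P \ P) := by
    rw [sdiff_self]
    exact isClosed_empty
  obtain ⟨ρ', c, R, L, hc, hlev, hsta, hcc⟩ := Pool.Agent.H81.AC.acl h.pg h.pg.Pc Subset.rfl h.pg.Pf hPP hCP hCn hden hRg hClu
  have hpst := Pool.Agent.H39.AC.pst h.emb h.pg.fd.continuousOn (h.hom hFo) h.eq h.comp h.pg.Pf (by
    rw [h.img]
    exact hB)
  obtain ⟨M, hM, -, hMC, hfw, hin, -, hcl⟩ := Pool.Agent.H39.AC.str_of h.pg Subset.rfl h.pg.Pc h.pg.Pf hPP hCP hden (h.om hE hCP)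
    hRg (by
      intro s D hs
      obtain ⟨T, hT⟩ := hpst s hs D
      refine ⟨T, fun x hx m O O₁ hq hxO hfr => ?_⟩
      exact hT x hx m O hq.op hq.bd hq.Nn hxO (fun y hy => hfr _ (hq.fr y hy)) hq.ct) hc hlev hsta hcc
  exact h.back hCK hM hMC hfw hin hcl

end Pool.Agent.H56.STR
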